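import Pool.Agent.TH280.LS.StmC

set_option autoImplicit false

open MeasureTheory Set
open scoped ENNReal
open Pool.Agent.TH280.LS

namespace Pool.Agent.TH499.SUMK

lemma le_ra {a : ℝ} (ha : 0 < a) (ξ : ℝ) : a ≤ ra a ξ := by
  unfold ra
  exact Real.le_sqrt_of_sq_le (by nlinarith [sq_nonneg ξ])

lemma rpow_aux {a M s1 s2 : ℝ} (ha : 0 < a) (hM : a ≤ M) (h2 : 0 ≤ s2) :
    (1 + a) ^ s2 * (1 + M) ^ (-(s1 + s2)) ≤ (1 + M) ^ (-s1) := by
  have h1 : (0 : ℝ) < 1 + M := by linarith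
  have e1 : (1 + M) ^ (-(s1 + s2)) = (1 + M) ^ (-s1) * (1 + M) ^ (-s2) := by
    rw [← Real.rpow_add h1]; congr 1; ring
  rw [e1]
  have h3 : (1 + a) ^ s2 ≤ (1 + M) ^ s2 := Real.rpow_le_rpow (by linarith) (by linarith) h2
  have h4 : (1 + M) ^ s2 * (1 + M) ^ (-s2) = 1 := by
    rw [← Real.rpow_add h1]; simp
  have h5 : 0 ≤ (1 + M) ^ (-s1) := Real.rpow_nonneg h1.le _
  have h6 : 0 ≤ (1 + M) ^ (-s2) := Real.rpow_nonneg h1.le _
  calc (1 + a) ^ s2 * ((1 + M) ^ (-s1) * (1 + M) ^ (-s2))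
      = (1 + M) ^ (-s1) * ((1 + a) ^ s2 * (1 + M) ^ (-s2)) := by ring
    _ ≤ (1 + M) ^ (-s1) * ((1 + M) ^ s2 * (1 + M) ^ (-s2)) :=
        mul_le_mul_of_nonneg_left (mul_le_mul_of_nonneg_right h3 h6) h5
    _ = (1 + M) ^ (-s1) := by rw [h4, mul_one]

lemma rpow_aux2 {a M s1 s2 : ℝ} (ha : 0 < a) (hM : a ≤ M) (h2 : 0 ≤ s2) :
    (1 + a) ^ s2 * (1 + M) ^ (-(s1 + s2) - 1) ≤ (1 + M) ^ (-s1 - 1) := by
  have := rpow_aux (s1 := s1 + 1) ha hM h2
  have e1 : -(s1 + 1 + s2) = -(s1 + s2) - 1 := by ring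
  have e2 : -(s1 + 1) = -s1 - 1 := by ring
  rwa [e1, e2] at this

lemma sy_aux {a s1 s2 : ℝ} {w : ℝ → ℂ} (ha : 0 < a) (h1 : 0 < s1) (h2 : 0 ≤ s2)
    (hw : Sy (s1 + s2) w) :
    Sy s1 (fun r => (((1 + a) ^ s2 : ℝ) : ℂ) * w (max r a)) := by
  have hK : (0 : ℝ) < (1 + a) ^ s2 := Real.rpow_pos_of_pos (by linarith) _
  refine ⟨fun r hr => ?_, fun r r' hr hrr => ?_⟩
  · have hM : a ≤ max r a := le_max_right _ _
    have hM0 : 0 ≤ max r a := le_trans ha.le hM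
    rw [norm_mul, Complex.norm_of_nonneg hK.le]
    refine (mul_le_mul_of_nonneg_left (hw.1 _ hM0) hK.le).trans ?_
    refine (rpow_aux ha hM h2).trans ?_
    exact Real.rpow_le_rpow_of_nonpos (by linarith) (by linarith [le_max_left r a]) (by linarith)
  · have hM : a ≤ max r a := le_max_right _ _
    have hM0 : 0 ≤ max r a := le_trans ha.le hM
    have hMM : max r a ≤ max r' a := max_le_max hrr le_rfl
    have hd : max r' a - max r a ≤ r' - r := by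
      rcases le_total r a with h | h
      · rw [max_eq_right h]
        rcases le_total r' a with h' | h'
        · rw [max_eq_right h']; linarith
        · rw [max_eq_left h']; linarith
      · rw [max_eq_left h, max_eq_left (h.trans hrr)]
    rw [← mul_sub, norm_mul, Complex.norm_of_nonneg hK.le]
    refine (mul_le_mul_of_nonneg_left (hw.2 _ _ hM0 hMM) hK.le).trans ?_
    rw [← mul_assoc]
    have h4 : (1 + a) ^ s2 * (1 + max r a) ^ (-(s1 + s2) - 1) ≤ (1 + r) ^ (-s1 - 1) := by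
      refine (rpow_aux2 ha hM h2).trans ?_
      exact Real.rpow_le_rpow_of_nonpos (by linarith) (by linarith [le_max_left r a]) (by linarith)
    exact mul_le_mul h4 hd (by linarith) (Real.rpow_nonneg (by linarith) _)

theorem sumk_thm : S_SUM → S_SUMK := by
  intro hS s1 s2 h1 h2
  obtain ⟨C, hC, hCC⟩ := hS s1 h1
  refine ⟨C, hC, fun a w G ha hw hwi hG => ?_⟩
  set K : ℝ := (1 + a) ^ s2 with hKdef
  have hK : 0 < K := Real.rpow_pos_of_pos (by linarith) _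
  set w' : ℝ → ℂ := fun r => (K : ℂ) * w (max r a) with hw'
  have hw'ra : (fun ξ => w' (ra a ξ)) = fun ξ => (K : ℂ) * w (ra a ξ) := by
    funext ξ
    simp only [hw']
    rw [max_eq_left (le_ra ha ξ)]
  have hi : Integrable (fun ξ => w' (ra a ξ)) := by
    rw [hw'ra]; exact hwi.const_mul _
  have key := hCC a w' G ha (sy_aux ha h1 h2 hw) hi hG
  have hV : ∀ t x, Vx a (fun ξ => w' (ra a ξ)) G t x =
      (K : ℂ) * Vx a (fun ξ => w (ra a ξ)) G t x := by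
    intro t x
    rw [hw'ra]
    unfold Vx
    rw [← integral_const_mul]
    refine integral_congr_ae (Filter.Eventually.of_forall fun ξ => ?_)
    simp only
    ring
  have hKe : ∀ z : ℂ, ‖(K : ℂ) * z‖ₑ ^ 4 = ENNReal.ofReal (K ^ 4) * ‖z‖ₑ ^ 4 := by
    intro z
    rw [enorm_mul, mul_pow]
    congr 1
    rw [ENNReal.ofReal_pow hK.le]
    congr 1
    rw [← ofReal_norm_eq_enorm, Complex.norm_of_nonneg hK.le]
  have hfac : ∫⁻ t in Icc (-2 : ℝ) 2, ∫⁻ x : ℝ, ‖Vx a (fun ξ => w' (ra a ξ)) G t x‖ₑ ^ 4 =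
      ENNReal.ofReal (K ^ 4) *
        ∫⁻ t in Icc (-2 : ℝ) 2, ∫⁻ x : ℝ, ‖Vx a (fun ξ => w (ra a ξ)) G t x‖ₑ ^ 4 := by
    rw [← lintegral_const_mul' _ _ ENNReal.ofReal_ne_top]
    refine lintegral_congr fun t => ?_
    rw [← lintegral_const_mul' _ _ ENNReal.ofReal_ne_top]
    refine lintegral_congr fun x => ?_
    rw [hV, hKe]
  rw [hfac] at key
  have hinv : (1 + a) ^ (-(4 * s2)) * K ^ 4 = 1 := by
    have e1 : K ^ 4 = (1 + a) ^ (4 * s2) := by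
      rw [hKdef, ← Real.rpow_natCast, ← Real.rpow_mul (by linarith)]
      congr 1; push_cast; ring
    rw [e1, ← Real.rpow_add (by linarith)]; simp
  have hp : 0 ≤ (1 + a) ^ (-(4 * s2)) := Real.rpow_nonneg (by linarith) _
  calc ∫⁻ t in Icc (-2 : ℝ) 2, ∫⁻ x : ℝ, ‖Vx a (fun ξ => w (ra a ξ)) G t x‖ₑ ^ 4
      = ENNReal.ofReal ((1 + a) ^ (-(4 * s2))) * (ENNReal.ofReal (K ^ 4) *
        ∫⁻ t in Icc (-2 : ℝ) 2, ∫⁻ x : ℝ, ‖Vx a (fun ξ => w (ra a ξ)) G t x‖ₑ ^ 4) := by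
        rw [← mul_assoc, ← ENNReal.ofReal_mul hp, hinv, ENNReal.ofReal_one, one_mul]
    _ ≤ ENNReal.ofReal ((1 + a) ^ (-(4 * s2))) *
          (ENNReal.ofReal C * ∫⁻ x : ℝ, ‖G x‖ₑ ^ 4) := by gcongr
    _ = ENNReal.ofReal (C * (1 + a) ^ (-(4 * s2))) * ∫⁻ x : ℝ, ‖G x‖ₑ ^ 4 := by
        rw [← mul_assoc, ← ENNReal.ofReal_mul hp, mul_comm C]

end Pool.Agent.TH499.SUMK
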