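import Mathlib

set_option autoImplicit false
open Classical

namespace Pool.Agent.TH499.EPPA

/-- The four-sets with two elements in each part and odd number of edges between the parts. -/
noncomputable def mkH {β : Type} [Fintype β] (part : β → Bool) (E : β → β → Bool) :
    Finset (Finset β) :=
  Finset.univ.filter (fun e => ∃ a b c d, a ≠ b ∧ c ≠ d ∧ part a = part b ∧ part c = part d ∧
    part a ≠ part c ∧ e = {a, b, c, d} ∧ ((E a c ^^ E a d) ^^ (E b c ^^ E b d)) = true)

theorem mem_mkH {β : Type} [Fintype β] {part : β → Bool} {E : β → β → Bool} {e : Finset β} :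
    e ∈ mkH part E ↔ ∃ a b c d, a ≠ b ∧ c ≠ d ∧ part a = part b ∧ part c = part d ∧
    part a ≠ part c ∧ e = {a, b, c, d} ∧ ((E a c ^^ E a d) ^^ (E b c ^^ E b d)) = true := by
  simp [mkH]

/-- equal four-sets have the same pairs -/
theorem quad_eq {β : Type} {part : β → Bool} {a b c d a' b' c' d' : β}
    (hab : a ≠ b) (hcd : c ≠ d) (p1 : part a = part b) (p2 : part c = part d)
    (p3 : part a ≠ part c)
    (hab' : a' ≠ b') (hcd' : c' ≠ d') (p1' : part a' = part b') (p2' : part c' = part d')
    (p3' : part a' ≠ part c')
    (h : ({a, b, c, d} : Finset β) = {a', b', c', d'}) (hp : part a = part a') :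
    ((a = a' ∧ b = b') ∨ (a = b' ∧ b = a')) ∧ ((c = c' ∧ d = d') ∨ (c = d' ∧ d = c')) := by
  have ha : a ∈ ({a', b', c', d'} : Finset β) := by rw [← h]; simp
  have hb : b ∈ ({a', b', c', d'} : Finset β) := by rw [← h]; simp
  have hc : c ∈ ({a', b', c', d'} : Finset β) := by rw [← h]; simp
  have hd : d ∈ ({a', b', c', d'} : Finset β) := by rw [← h]; simp
  simp only [Finset.mem_insert, Finset.mem_singleton] at ha hb hc hd
  have ha' : a = a' ∨ a = b' := by
    rcases ha with h | h | h | h
    · exact Or.inl h
    · exact Or.inr h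
    · subst h; exact absurd hp.symm p3'
    · subst h; exact absurd (p2'.trans hp).symm p3'
  have hb' : b = a' ∨ b = b' := by
    rcases hb with h | h | h | h
    · exact Or.inl h
    · exact Or.inr h
    · subst h; exact absurd (p1.symm.trans hp).symm p3'
    · subst h; exact absurd (p2'.trans (p1.symm.trans hp)).symm p3'
  have hc' : c = c' ∨ c = d' := by
    rcases hc with h | h | h | h
    · subst h; exact absurd hp p3
    · subst h; exact absurd (hp.trans p1') p3
    · exact Or.inl h
    · exact Or.inr h
  have hd' : d = c' ∨ d = d' := by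
    rcases hd with h | h | h | h
    · subst h; exact absurd (hp.trans p2.symm) p3
    · subst h; exact absurd ((hp.trans p1').trans p2.symm) p3
    · exact Or.inl h
    · exact Or.inr h
  constructor
  · rcases ha' with h1 | h1 <;> rcases hb' with h2 | h2
    · exact absurd (h1.trans h2.symm) hab
    · exact Or.inl ⟨h1, h2⟩
    · exact Or.inr ⟨h1, h2⟩
    · exact absurd (h1.trans h2.symm) hab
  · rcases hc' with h1 | h1 <;> rcases hd' with h2 | h2
    · exact absurd (h1.trans h2.symm) hcd
    · exact Or.inl ⟨h1, h2⟩
    · exact Or.inr ⟨h1, h2⟩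
    · exact absurd (h1.trans h2.symm) hcd

theorem quad_comm {β : Type} (a b c d : β) : ({a, b, c, d} : Finset β) = {c, d, a, b} := by
  ext x
  simp only [Finset.mem_insert, Finset.mem_singleton]
  tauto

theorem quad_mem {β : Type} [Fintype β] {part : β → Bool} {E : β → β → Bool}
    (hE : ∀ x y, E x y = E y x) {a b c d : β}
    (hab : a ≠ b) (hcd : c ≠ d) (p1 : part a = part b) (p2 : part c = part d)
    (p3 : part a ≠ part c) :
    ({a, b, c, d} : Finset β) ∈ mkH part E ↔
      ((E a c ^^ E a d) ^^ (E b c ^^ E b d)) = true := by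
  constructor
  · intro h
    obtain ⟨a', b', c', d', hab', hcd', p1', p2', p3', he, hx⟩ := mem_mkH.1 h
    by_cases hp : part a = part a'
    · obtain ⟨h1, h2⟩ := quad_eq hab hcd p1 p2 p3 hab' hcd' p1' p2' p3' he hp
      rcases h1 with ⟨rfl, rfl⟩ | ⟨rfl, rfl⟩ <;> rcases h2 with ⟨rfl, rfl⟩ | ⟨rfl, rfl⟩
      · exact hx
      · rw [← hx, Bool.xor_comm (E a c), Bool.xor_comm (E b c)]
      · rw [← hx, Bool.xor_comm (E a c ^^ E a d)]
      · rw [← hx, Bool.xor_comm (E a c), Bool.xor_comm (E b c),
          Bool.xor_comm (E a d ^^ E a c)]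
    · have hp' : part c = part a' := by
        revert p3 hp
        cases part a <;> cases part c <;> cases part a' <;> simp
      rw [quad_comm] at he
      obtain ⟨h1, h2⟩ := quad_eq hcd hab p2 p1 (Ne.symm p3) hab' hcd' p1' p2' p3' he hp'
      rcases h1 with ⟨rfl, rfl⟩ | ⟨rfl, rfl⟩ <;> rcases h2 with ⟨rfl, rfl⟩ | ⟨rfl, rfl⟩ <;>
      · rw [← hx, hE a c, hE a d, hE b c, hE b d]
        generalize E c a = w
        generalize E d a = x
        generalize E c b = y
        generalize E d b = z
        cases w <;> cases x <;> cases y <;> cases z <;> rfl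
  · intro h
    exact mem_mkH.2 ⟨a, b, c, d, hab, hcd, p1, p2, p3, rfl, h⟩

/-- Membership is preserved by embeddings which preserve the parts up to swapping, and the edges
between the parts up to switching. -/
theorem mkH_map {α β : Type} [Fintype α] [Fintype β] {pA : α → Bool} {EA : α → α → Bool}
    {pB : β → Bool} {EB : β → β → Bool} (f : α ↪ β) (hp : ∀ x y, pA x = pA y ↔ pB (f x) = pB (f y))
    (t : α → Bool) (hE : ∀ x y, pA x ≠ pA y → EB (f x) (f y) = (EA x y ^^ (t x ^^ t y)))
    (e : Finset α) : e ∈ mkH pA EA ↔ e.map f ∈ mkH pB EB := by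
  have key : ∀ a b c d, pA a = pA b → pA c = pA d → pA a ≠ pA c →
      ((EB (f a) (f c) ^^ EB (f a) (f d)) ^^ (EB (f b) (f c) ^^ EB (f b) (f d))) =
      ((EA a c ^^ EA a d) ^^ (EA b c ^^ EA b d)) := by
    intro a b c d h1 h2 h3
    rw [hE a c h3, hE a d (by rwa [← h2]), hE b c (by rwa [← h1]), hE b d (by rwa [← h1, ← h2])]
    generalize EA a c = w
    generalize EA a d = x
    generalize EA b c = y
    generalize EA b d = z
    generalize t a = u1
    generalize t b = u2
    generalize t c = u3
    generalize t d = u4
    revert w x y z u1 u2 u3 u4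
    decide
  have hm : ∀ a b c d, ({a, b, c, d} : Finset α).map f = {f a, f b, f c, f d} := by
    intro a b c d
    simp [Finset.map_insert]
  constructor
  · intro h
    obtain ⟨a, b, c, d, hab, hcd, p1, p2, p3, he, hx⟩ := mem_mkH.1 h
    refine mem_mkH.2 ⟨f a, f b, f c, f d, fun h => hab (f.injective h),
      fun h => hcd (f.injective h), (hp a b).1 p1, (hp c d).1 p2, fun h => p3 ((hp a c).2 h), ?_, ?_⟩
    · rw [he, hm]
    · rw [key a b c d p1 p2 p3]
      exact hx
  · intro h
    obtain ⟨a', b', c', d', hab, hcd, p1, p2, p3, he, hx⟩ := mem_mkH.1 h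
    have ha : a' ∈ e.map f := by rw [he]; simp
    have hb : b' ∈ e.map f := by rw [he]; simp
    have hc : c' ∈ e.map f := by rw [he]; simp
    have hd : d' ∈ e.map f := by rw [he]; simp
    obtain ⟨a, _, rfl⟩ := Finset.mem_map.1 ha
    obtain ⟨b, _, rfl⟩ := Finset.mem_map.1 hb
    obtain ⟨c, _, rfl⟩ := Finset.mem_map.1 hc
    obtain ⟨d, _, rfl⟩ := Finset.mem_map.1 hd
    have q1 := (hp a b).2 p1
    have q2 := (hp c d).2 p2
    have q3 : pA a ≠ pA c := fun h => p3 ((hp a c).1 h)
    refine mem_mkH.2 ⟨a, b, c, d, fun h => hab (h ▸ rfl), fun h => hcd (h ▸ rfl), q1, q2, q3, ?_, ?_⟩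
    · rw [← hm] at he
      exact Finset.map_injective f he
    · rw [← key a b c d q1 q2 q3]
      exact hx


/-- three-graphs -/
def IsTG {β : Type} (r : β → β → Prop) (H : Finset (Finset β)) : Prop :=
  Equivalence r ∧ (∀ a b c, r a b ∨ r b c ∨ r a c) ∧
    (∀ e ∈ H, e.card = 4 ∧ ∀ v ∈ e, (e.filter (fun w => r v w)).card = 2) ∧
    (∀ S : Finset β, S.card = 5 →
      (∀ v ∈ S, (S.filter (fun w => r v w)).card ≤ 3) →
      Even (H.filter (fun e => e ⊆ S)).card)

theorem mkH_normal {β : Type} [Fintype β] {part : β → Bool} {E : β → β → Bool} {e : Finset β}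
    (h : e ∈ mkH part E) (δ : Bool) : ∃ a b c d, a ≠ b ∧ c ≠ d ∧ part a = δ ∧ part b = δ ∧
      part c ≠ δ ∧ part d ≠ δ ∧ e = {a, b, c, d} := by
  obtain ⟨a, b, c, d, hab, hcd, p1, p2, p3, he, -⟩ := mem_mkH.1 h
  by_cases hp : part a = δ
  · exact ⟨a, b, c, d, hab, hcd, hp, p1.symm.trans hp, fun h => p3 (hp.trans h.symm),
      fun h => p3 (hp.trans (p2.trans h).symm), he⟩
  · have hc : part c = δ := by
      revert p3 hp
      cases part a <;> cases part c <;> cases δ <;> simp
    refine ⟨c, d, a, b, hcd, hab, hc, p2.symm.trans hc, hp, fun h => hp (p1.trans h), ?_⟩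
    rw [he, quad_comm]

theorem even_aux {β : Type} [Fintype β] {part : β → Bool} {E : β → β → Bool}
    (hE : ∀ x y, E x y = E y x) {a b c x y : β} (hab : a ≠ b) (hac : a ≠ c) (hbc : b ≠ c)
    (hxy : x ≠ y) (p1 : part a = part b) (p2 : part a = part c) (p3 : part x = part y)
    (p4 : part a ≠ part x) :
    Even ((mkH part E).filter (fun e => e ⊆ ({a, b, c, x, y} : Finset β))).card := by
  have hax : a ≠ x := fun h => p4 (by rw [h])
  have hay : a ≠ y := fun h => p4 (by rw [h, p3])
  have hbx : b ≠ x := fun h => p4 (by rw [p1, h])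
  have hby : b ≠ y := fun h => p4 (by rw [p1, h, p3])
  have hcx : c ≠ x := fun h => p4 (by rw [p2, h])
  have hcy : c ≠ y := fun h => p4 (by rw [p2, h, p3])
  -- the three candidate sets
  have hsub : (mkH part E).filter (fun e => e ⊆ ({a, b, c, x, y} : Finset β)) =
      ({{a, b, x, y}, {a, c, x, y}, {b, c, x, y}} : Finset (Finset β)).filter
        (fun e => e ∈ mkH part E) := by
    ext e
    simp only [Finset.mem_filter, Finset.mem_insert, Finset.mem_singleton]
    constructor
    · rintro ⟨h1, h2⟩
      refine ⟨?_, h1⟩
      obtain ⟨a', b', c', d', hab', hcd', q1, q2, q3, q4, he⟩ := mkH_normal h1 (part a)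
      have ha' : a' ∈ ({a, b, c, x, y} : Finset β) := h2 (by rw [he]; simp)
      have hb' : b' ∈ ({a, b, c, x, y} : Finset β) := h2 (by rw [he]; simp)
      have hc' : c' ∈ ({a, b, c, x, y} : Finset β) := h2 (by rw [he]; simp)
      have hd' : d' ∈ ({a, b, c, x, y} : Finset β) := h2 (by rw [he]; simp)
      have side1 : ∀ z, z ∈ ({a, b, c, x, y} : Finset β) → part z = part a →
          (z = a ∨ z = b ∨ z = c) := by
        intro z hz hp
        simp only [Finset.mem_insert, Finset.mem_singleton] at hz
        rcases hz with h | h | h | h | h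
        · exact Or.inl h
        · exact Or.inr (Or.inl h)
        · exact Or.inr (Or.inr h)
        · exact absurd (hp.symm.trans (by rw [h])) p4
        · exact absurd (hp.symm.trans (by rw [h, ← p3])) p4
      have side2 : ∀ z, z ∈ ({a, b, c, x, y} : Finset β) → part z ≠ part a →
          (z = x ∨ z = y) := by
        intro z hz hp
        simp only [Finset.mem_insert, Finset.mem_singleton] at hz
        rcases hz with h | h | h | h | h
        · exact absurd (by rw [h]) hp
        · exact absurd (by rw [h, p1]) hp
        · exact absurd (by rw [h, p2]) hp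
        · exact Or.inl h
        · exact Or.inr h
      have sa := side1 a' ha' q1
      have sb := side1 b' hb' q2
      have sc := side2 c' hc' q3
      have sd := side2 d' hd' q4
      have hcd2 : ({a', b', c', d'} : Finset β) = {a', b', x, y} := by
        rcases sc with h | h <;> rcases sd with h' | h'
        · exact absurd (h.trans h'.symm) hcd'
        · rw [h, h']
        · rw [h, h', Finset.pair_comm y x]
        · exact absurd (h.trans h'.symm) hcd'
      rw [he, hcd2]
      rcases sa with h | h | h <;> rcases sb with h' | h' | h'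
      · exact absurd (h.trans h'.symm) hab'
      · left; rw [h, h']
      · right; left; rw [h, h']
      · left; rw [h, h', Finset.insert_comm]
      · exact absurd (h.trans h'.symm) hab'
      · right; right; rw [h, h']
      · right; left; rw [h, h', Finset.insert_comm]
      · right; right; rw [h, h', Finset.insert_comm]
      · exact absurd (h.trans h'.symm) hab'
    · rintro ⟨h1, h2⟩
      refine ⟨h2, ?_⟩
      rcases h1 with rfl | rfl | rfl <;>
      · intro z
        simp only [Finset.mem_insert, Finset.mem_singleton]
        tauto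
  rw [hsub]
  have m1 := quad_mem hE hab hxy p1 p3 p4
  have m2 := quad_mem hE hac hxy p2 p3 p4
  have m3 := quad_mem hE hbc hxy (p1.symm.trans p2) p3 (p1 ▸ p4)
  have n1 : ({a, b, x, y} : Finset β) ≠ {a, c, x, y} := by
    intro h
    have : b ∈ ({a, c, x, y} : Finset β) := by rw [← h]; simp
    simp only [Finset.mem_insert, Finset.mem_singleton] at this
    rcases this with h | h | h | h
    · exact hab h.symm
    · exact hbc h
    · exact hbx h
    · exact hby h
  have n2 : ({a, b, x, y} : Finset β) ≠ {b, c, x, y} := by
    intro h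
    have : a ∈ ({b, c, x, y} : Finset β) := by rw [← h]; simp
    simp only [Finset.mem_insert, Finset.mem_singleton] at this
    rcases this with h | h | h | h
    · exact hab h
    · exact hac h
    · exact hax h
    · exact hay h
  have n3 : ({a, c, x, y} : Finset β) ≠ {b, c, x, y} := by
    intro h
    have : a ∈ ({b, c, x, y} : Finset β) := by rw [← h]; simp
    simp only [Finset.mem_insert, Finset.mem_singleton] at this
    rcases this with h | h | h | h
    · exact hab h
    · exact hac h
    · exact hax h
    · exact hay h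
  rw [Finset.filter_insert, Finset.filter_insert, Finset.filter_singleton]
  simp only [m1, m2, m3]
  generalize (E a x ^^ E a y) = w1
  generalize (E b x ^^ E b y) = w2
  generalize (E c x ^^ E c y) = w3
  cases w1 <;> cases w2 <;> cases w3 <;> simp [n1, n2, n3]

theorem isTG_mkH {β : Type} [Fintype β] {part : β → Bool} {E : β → β → Bool}
    (hE : ∀ x y, E x y = E y x) : IsTG (fun x y => part x = part y) (mkH part E) := by
  refine ⟨⟨fun _ => rfl, fun h => h.symm, fun h1 h2 => h1.trans h2⟩, ?_, ?_, ?_⟩
  · intro a b c
    show part a = part b ∨ part b = part c ∨ part a = part c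
    cases part a <;> cases part b <;> cases part c <;> simp
  · intro e he
    obtain ⟨a, b, c, d, hab, hcd, p1, p2, p3, rfl, hx⟩ := mem_mkH.1 he
    have hac : a ≠ c := fun h => p3 (by rw [h])
    have had : a ≠ d := fun h => p3 (by rw [h, p2])
    have hbc : b ≠ c := fun h => p3 (by rw [p1, h])
    have hbd : b ≠ d := fun h => p3 (by rw [p1, h, p2])
    refine ⟨by simp [hab, hac, had, hbc, hbd, hcd], ?_⟩
    intro v hv
    have h1 : ∀ v, part v = part a → ∀ (inst : DecidablePred (fun w => part v = part w)),
        @Finset.filter _ (fun w => part v = part w) inst {a, b, c, d} = {a, b} := by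
      intro v hv inst
      have q3 : part b ≠ part c := p1 ▸ p3
      have q4 : part a ≠ part d := p2 ▸ p3
      have q5 : part b ≠ part d := p1 ▸ q4
      simp [Finset.filter_insert, Finset.filter_singleton, hv, p1, q5, p2]
    have h2 : ∀ v, part v = part c → ∀ (inst : DecidablePred (fun w => part v = part w)),
        @Finset.filter _ (fun w => part v = part w) inst {a, b, c, d} = {c, d} := by
      intro v hv inst
      rw [quad_comm]
      have q3 : part d ≠ part a := by rw [← p2]; exact p3.symm
      simp [Finset.filter_insert, Finset.filter_singleton, hv, p2, q3, ← p1]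
    simp only [Finset.mem_insert, Finset.mem_singleton] at hv
    rcases hv with rfl | rfl | rfl | rfl
    · exact (congrArg Finset.card (h1 v rfl _)).trans (Finset.card_pair hab)
    · exact (congrArg Finset.card (h1 v p1.symm _)).trans (Finset.card_pair hab)
    · exact (congrArg Finset.card (h2 v rfl _)).trans (Finset.card_pair hcd)
    · exact (congrArg Finset.card (h2 v p2.symm _)).trans (Finset.card_pair hcd)
  · intro S hS hS3
    have hsplit := Finset.card_filter_add_card_filter_not (s := S) (fun w => part w = true)
    have h1 : ∀ δ : Bool, (S.filter (fun w => part w = δ)).card ≤ 3 := by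
      intro δ
      rcases Finset.eq_empty_or_nonempty (S.filter (fun w => part w = δ)) with h | ⟨v, hv⟩
      · rw [h]; simp
      · rw [Finset.mem_filter] at hv
        have := hS3 v hv.1
        refine le_trans (le_of_eq ?_) this
        congr 1
        ext w
        simp only [Finset.mem_filter]
        rw [hv.2]
        exact and_congr_right fun _ => eq_comm
    have h2 : S.filter (fun w => ¬ part w = true) = S.filter (fun w => part w = false) := by
      ext w; simp
    rw [h2] at hsplit
    have key : ∀ δ : Bool, (S.filter (fun w => part w = δ)).card = 3 →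
        (S.filter (fun w => part w = !δ)).card = 2 →
        Even ((mkH part E).filter (fun e => e ⊆ S)).card := by
      intro δ h3 h4
      obtain ⟨a, b, c, hab, hac, hbc, e3⟩ := Finset.card_eq_three.1 h3
      obtain ⟨x, y, hxy, e2⟩ := Finset.card_eq_two.1 h4
      have ma : a ∈ S.filter (fun w => part w = δ) := by rw [e3]; simp
      have mb : b ∈ S.filter (fun w => part w = δ) := by rw [e3]; simp
      have mc : c ∈ S.filter (fun w => part w = δ) := by rw [e3]; simp
      have mx : x ∈ S.filter (fun w => part w = !δ) := by rw [e2]; simp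
      have my : y ∈ S.filter (fun w => part w = !δ) := by rw [e2]; simp
      rw [Finset.mem_filter] at ma mb mc mx my
      have hSe : S = {a, b, c, x, y} := by
        ext z
        have t1 : z ∈ S.filter (fun w => part w = δ) ↔ z ∈ ({a, b, c} : Finset β) := by rw [e3]
        have t2 : z ∈ S.filter (fun w => part w = !δ) ↔ z ∈ ({x, y} : Finset β) := by rw [e2]
        simp only [Finset.mem_filter, Finset.mem_insert, Finset.mem_singleton] at t1 t2 ⊢
        constructor
        · intro hz
          by_cases hp : part z = δ
          · have := t1.1 ⟨hz, hp⟩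
            tauto
          · have := t2.1 ⟨hz, by revert hp; cases part z <;> cases δ <;> simp⟩
            tauto
        · intro hz
          rcases hz with rfl | rfl | rfl | rfl | rfl
          · exact ma.1
          · exact mb.1
          · exact mc.1
          · exact mx.1
          · exact my.1
      rw [hSe]
      apply even_aux hE hab hac hbc hxy (ma.2.trans mb.2.symm) (ma.2.trans mc.2.symm)
        (mx.2.trans my.2.symm)
      rw [ma.2, mx.2]
      cases δ <;> simp
    have h3 := h1 true
    have h4 := h1 false
    have h5 : (S.filter (fun w => part w = true)).card = 3 ∨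
        (S.filter (fun w => part w = false)).card = 3 := by omega
    rcases h5 with h5 | h5
    · exact key true h5 (by simp only [Bool.not_true]; omega)
    · exact key false h5 (by simp only [Bool.not_false]; omega)

theorem IsTG.not_mem_left {β : Type} {r : β → β → Prop} {H : Finset (Finset β)}
    (h : IsTG r H) (a c d : β) : ({a, a, c, d} : Finset β) ∉ H := by
  intro hm
  have h1 := (h.2.2.1 _ hm).1
  have h2 : ({a, a, c, d} : Finset β).card ≤ 3 := by
    rw [Finset.insert_idem]
    exact Finset.card_le_three
  omega

/-- the cocycle identity -/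
theorem IsTG.cocycle {β : Type} {r : β → β → Prop} {H : Finset (Finset β)}
    (h : IsTG r H) {a b e c d : β} (hab : r a b) (hae : r a e) (hcd : r c d) (hac : ¬ r a c) :
    ((decide (({a, b, c, d} : Finset β) ∈ H) ^^ decide (({b, e, c, d} : Finset β) ∈ H)) ^^
      decide (({a, e, c, d} : Finset β) ∈ H)) = false := by
  have hr := h.1
  by_cases e1 : a = b
  · subst e1
    rw [decide_eq_false (h.not_mem_left a c d)]
    generalize decide (({a, e, c, d} : Finset β) ∈ H) = u
    cases u <;> rfl
  by_cases e2 : b = e
  · subst e2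
    rw [decide_eq_false (h.not_mem_left b c d)]
    generalize decide (({a, b, c, d} : Finset β) ∈ H) = u
    cases u <;> rfl
  by_cases e3 : a = e
  · subst e3
    rw [Finset.insert_comm b a, decide_eq_false (h.not_mem_left a c d)]
    generalize decide (({a, b, c, d} : Finset β) ∈ H) = u
    cases u <;> rfl
  by_cases e4 : c = d
  · subst e4
    have h1 : ∀ x y : β, ({x, y, c, c} : Finset β) ∉ H := by
      intro x y
      rw [quad_comm]
      exact h.not_mem_left c x y
    rw [decide_eq_false (h1 a b), decide_eq_false (h1 b e), decide_eq_false (h1 a e)]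
    rfl
  have hbc : ¬ r b c := fun h' => hac (hr.trans hab h')
  have hec : ¬ r e c := fun h' => hac (hr.trans hae h')
  have had : ¬ r a d := fun h' => hac (hr.trans h' (hr.symm hcd))
  have hbd : ¬ r b d := fun h' => hbc (hr.trans h' (hr.symm hcd))
  have hed : ¬ r e d := fun h' => hec (hr.trans h' (hr.symm hcd))
  have nac : a ≠ c := fun h' => hac (h' ▸ hr.refl a)
  have nbc : b ≠ c := fun h' => hbc (h' ▸ hr.refl b)
  have nec : e ≠ c := fun h' => hec (h' ▸ hr.refl e)
  have nad : a ≠ d := fun h' => had (h' ▸ hr.refl a)
  have nbd : b ≠ d := fun h' => hbd (h' ▸ hr.refl b)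
  have ned : e ≠ d := fun h' => hed (h' ▸ hr.refl e)
  have hcard : ({a, b, e, c, d} : Finset β).card = 5 := by
    simp [e1, e2, e3, e4, nac, nbc, nec, nad, nbd, ned]
  have hsame1 : ∀ v, r a v → ({a, b, e, c, d} : Finset β).filter (fun w => r v w) = {a, b, e} := by
    intro v hv
    ext w
    simp only [Finset.mem_filter, Finset.mem_insert, Finset.mem_singleton]
    constructor
    · rintro ⟨h1, h2⟩
      have h3 : r a w := hr.trans hv h2
      rcases h1 with h | h | h | h | h
      · exact Or.inl h
      · exact Or.inr (Or.inl h)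
      · exact Or.inr (Or.inr h)
      · exact absurd (h ▸ h3) hac
      · exact absurd (h ▸ h3) had
    · rintro (h | h | h)
      · exact ⟨Or.inl h, h ▸ hr.symm hv⟩
      · exact ⟨Or.inr (Or.inl h), h ▸ hr.trans (hr.symm hv) hab⟩
      · exact ⟨Or.inr (Or.inr (Or.inl h)), h ▸ hr.trans (hr.symm hv) hae⟩
  have hsame2 : ∀ v, r c v → ({a, b, e, c, d} : Finset β).filter (fun w => r v w) ⊆ {c, d} := by
    intro v hv w
    simp only [Finset.mem_filter, Finset.mem_insert, Finset.mem_singleton]
    rintro ⟨h1, h2⟩
    have h3 : r c w := hr.trans hv h2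
    rcases h1 with h | h | h | h | h
    · exact absurd (hr.symm (h ▸ h3)) hac
    · exact absurd (hr.symm (h ▸ h3)) hbc
    · exact absurd (hr.symm (h ▸ h3)) hec
    · exact Or.inl h
    · exact Or.inr h
  have heven := h.2.2.2 {a, b, e, c, d} hcard (by
    intro v hv
    have ha3 : ∀ v, r a v → (({a, b, e, c, d} : Finset β).filter (fun w => r v w)).card ≤ 3 := by
      intro v hv
      rw [hsame1 v hv]
      exact Finset.card_le_three
    have hc3 : ∀ v, r c v → (({a, b, e, c, d} : Finset β).filter (fun w => r v w)).card ≤ 3 := by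
      intro v hv
      exact (Finset.card_le_card (hsame2 v hv)).trans (Finset.card_le_two.trans (by norm_num))
    simp only [Finset.mem_insert, Finset.mem_singleton] at hv
    rcases hv with rfl | rfl | rfl | rfl | rfl
    · exact ha3 _ (hr.refl _)
    · exact ha3 _ hab
    · exact ha3 _ hae
    · exact hc3 _ (hr.refl _)
    · exact hc3 _ hcd)
  have hsub : H.filter (fun f => f ⊆ ({a, b, e, c, d} : Finset β)) =
      ({{a, b, c, d}, {a, e, c, d}, {b, e, c, d}} : Finset (Finset β)).filter
        (fun f => f ∈ H) := by
    ext f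
    simp only [Finset.mem_filter, Finset.mem_insert, Finset.mem_singleton]
    constructor
    · rintro ⟨h1, h2⟩
      refine ⟨?_, h1⟩
      obtain ⟨hf4, hf2⟩ := h.2.2.1 f h1
      have hone : (({a, b, e, c, d} : Finset β) \ f).card = 1 := by
        rw [Finset.card_sdiff_of_subset h2, hcard, hf4]
      obtain ⟨z, hz⟩ := Finset.card_eq_one.1 hone
      have hfe : ∀ w, w ∈ f ↔ w ∈ ({a, b, e, c, d} : Finset β) ∧ w ≠ z := by
        intro w
        have h3 : w ∈ ({a, b, e, c, d} : Finset β) \ f ↔ w = z := by rw [hz, Finset.mem_singleton]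
        rw [Finset.mem_sdiff] at h3
        constructor
        · intro hw
          exact ⟨h2 hw, fun he => (h3.2 he).2 hw⟩
        · rintro ⟨hw, hn⟩
          by_contra hcon
          exact hn (h3.1 ⟨hw, hcon⟩)
      have hzS : z ∈ ({a, b, e, c, d} : Finset β) := by
        have : z ∈ ({a, b, e, c, d} : Finset β) \ f := by rw [hz]; simp
        exact (Finset.mem_sdiff.1 this).1
      have hne : a ≠ z → b ≠ z → e ≠ z → False := by
        intro na nb ne
        have hfa : a ∈ f := (hfe a).2 ⟨by simp, na⟩
        have hfb : b ∈ f := (hfe b).2 ⟨by simp, nb⟩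
        have hfe' : e ∈ f := (hfe e).2 ⟨by simp, ne⟩
        have h5 := hf2 a hfa
        have h6 : ({a, b, e} : Finset β) ⊆ f.filter (fun w => r a w) := by
          intro w hw
          simp only [Finset.mem_insert, Finset.mem_singleton] at hw
          rw [Finset.mem_filter]
          rcases hw with rfl | rfl | rfl
          · exact ⟨hfa, hr.refl _⟩
          · exact ⟨hfb, hab⟩
          · exact ⟨hfe', hae⟩
        have h7 := Finset.card_le_card h6
        have h8 : ({a, b, e} : Finset β).card = 3 := Finset.card_eq_three.2 ⟨a, b, e, e1, e3, e2, rfl⟩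
        omega
      simp only [Finset.mem_insert, Finset.mem_singleton] at hzS
      rcases hzS with rfl | rfl | rfl | rfl | rfl
      · right; right
        ext w
        rw [hfe]
        simp only [Finset.mem_insert, Finset.mem_singleton]
        constructor
        · rintro ⟨h1 | h1, h2⟩
          · exact absurd h1 h2
          · exact h1
        · intro h1
          refine ⟨Or.inr h1, ?_⟩
          rintro rfl
          tauto
      · right; left
        ext w
        rw [hfe]
        simp only [Finset.mem_insert, Finset.mem_singleton]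
        constructor
        · rintro ⟨h1 | h1 | h1, h2⟩
          · exact Or.inl h1
          · exact absurd h1 h2
          · exact Or.inr h1
        · intro h1
          refine ⟨by tauto, ?_⟩
          rintro rfl
          rcases h1 with h1 | h1 | h1 | h1
          · exact e1 h1.symm
          · exact e2 h1
          · exact nbc h1
          · exact nbd h1
      · left
        ext w
        rw [hfe]
        simp only [Finset.mem_insert, Finset.mem_singleton]
        constructor
        · rintro ⟨h1 | h1 | h1 | h1, h2⟩
          · exact Or.inl h1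
          · exact Or.inr (Or.inl h1)
          · exact absurd h1 h2
          · exact Or.inr (Or.inr h1)
        · intro h1
          refine ⟨by tauto, ?_⟩
          rintro rfl
          rcases h1 with h1 | h1 | h1 | h1
          · exact e3 h1.symm
          · exact e2 h1.symm
          · exact nec h1
          · exact ned h1
      · exact absurd (hne nac nbc nec) not_false
      · exact absurd (hne nad nbd ned) not_false
    · rintro ⟨h1, h2⟩
      refine ⟨h2, ?_⟩
      rcases h1 with rfl | rfl | rfl <;>
      · intro z
        simp only [Finset.mem_insert, Finset.mem_singleton]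
        tauto
  rw [hsub] at heven
  have n1 : ({a, b, c, d} : Finset β) ≠ {a, e, c, d} := by
    intro h
    have : b ∈ ({a, e, c, d} : Finset β) := by rw [← h]; simp
    simp only [Finset.mem_insert, Finset.mem_singleton] at this
    rcases this with h | h | h | h
    · exact e1 h.symm
    · exact e2 h
    · exact nbc h
    · exact nbd h
  have n2 : ({a, b, c, d} : Finset β) ≠ {b, e, c, d} := by
    intro h
    have : a ∈ ({b, e, c, d} : Finset β) := by rw [← h]; simp
    simp only [Finset.mem_insert, Finset.mem_singleton] at this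
    rcases this with h | h | h | h
    · exact e1 h
    · exact e3 h
    · exact nac h
    · exact nad h
  have n3 : ({a, e, c, d} : Finset β) ≠ {b, e, c, d} := by
    intro h
    have : a ∈ ({b, e, c, d} : Finset β) := by rw [← h]; simp
    simp only [Finset.mem_insert, Finset.mem_singleton] at this
    rcases this with h | h | h | h
    · exact e1 h
    · exact e3 h
    · exact nac h
    · exact nad h
  rw [Finset.filter_insert, Finset.filter_insert, Finset.filter_singleton] at heven
  by_cases m1 : ({a, b, c, d} : Finset β) ∈ H <;> by_cases m2 : ({a, e, c, d} : Finset β) ∈ H <;>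
    by_cases m3 : ({b, e, c, d} : Finset β) ∈ H <;>
    simp only [m1, m2, m3] at heven ⊢ <;> first | rfl | (exfalso; revert heven; simp [n1, n2, n3]; try decide)

theorem IsTG.normal {β : Type} {r : β → β → Prop} {H : Finset (Finset β)}
    (h : IsTG r H) {e : Finset β} (he : e ∈ H) : ∃ a b c d, a ≠ b ∧ c ≠ d ∧ r a b ∧ r c d ∧
      ¬ r a c ∧ e = {a, b, c, d} := by
  obtain ⟨h4, h2⟩ := h.2.2.1 e he
  have hr := h.1
  obtain ⟨v, hv⟩ : e.Nonempty := by rw [← Finset.card_pos]; omega
  have h3 := h2 v hv
  have h5 := Finset.card_filter_add_card_filter_not (s := e) (fun w => r v w)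
  rw [h3, h4] at h5
  obtain ⟨a, b, hab, e1⟩ := Finset.card_eq_two.1 h3
  obtain ⟨c, d, hcd, e2⟩ := Finset.card_eq_two.1 (by omega : (e.filter (fun w => ¬ r v w)).card = 2)
  have ma : a ∈ e.filter (fun w => r v w) := by rw [e1]; simp
  have mb : b ∈ e.filter (fun w => r v w) := by rw [e1]; simp
  have mc : c ∈ e.filter (fun w => ¬ r v w) := by rw [e2]; simp
  have md : d ∈ e.filter (fun w => ¬ r v w) := by rw [e2]; simp
  rw [Finset.mem_filter] at ma mb mc md
  refine ⟨a, b, c, d, hab, hcd, hr.trans (hr.symm ma.2) mb.2, ?_, ?_, ?_⟩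
  · rcases h.2.1 v c d with h' | h' | h'
    · exact absurd h' mc.2
    · exact h'
    · exact absurd h' md.2
  · intro h'
    exact mc.2 (hr.trans ma.2 h')
  · ext w
    have t1 : w ∈ e.filter (fun w => r v w) ↔ w ∈ ({a, b} : Finset β) := by rw [e1]
    have t2 : w ∈ e.filter (fun w => ¬ r v w) ↔ w ∈ ({c, d} : Finset β) := by rw [e2]
    simp only [Finset.mem_filter, Finset.mem_insert, Finset.mem_singleton] at t1 t2 ⊢
    by_cases hw : r v w <;> tauto

/-- Every three-graph comes from a bipartite graph. -/
theorem exists_rep {α : Type} [Fintype α] {r : α → α → Prop} {H : Finset (Finset α)}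
    (h : IsTG r H) : ∃ (part : α → Bool) (E : α → α → Bool), (∀ x y, E x y = E y x) ∧
      (∀ x y, r x y ↔ part x = part y) ∧ H = mkH part E := by
  have hr := h.1
  rcases isEmpty_or_nonempty α with hα | ⟨⟨x0⟩⟩
  · refine ⟨fun _ => false, fun _ _ => false, fun _ _ => rfl, fun x => hα.elim x, ?_⟩
    ext e
    constructor
    · intro he
      obtain ⟨a, -⟩ := h.normal he
      exact hα.elim a
    · intro he
      obtain ⟨a, -⟩ := mem_mkH.1 he
      exact hα.elim a
  have hpart : ∀ x y, r x y ↔ decide (r x0 x) = decide (r x0 y) := by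
    intro x y
    by_cases h1 : r x0 x <;> by_cases h2 : r x0 y
    · simp only [h1, h2, iff_true]
      exact hr.trans (hr.symm h1) h2
    · simp only [h1, h2]
      simp only [decide_true, decide_false, Bool.true_eq_false, iff_false]
      exact fun h3 => h2 (hr.trans h1 h3)
    · simp only [h1, h2]
      simp only [decide_true, decide_false, Bool.false_eq_true, iff_false]
      exact fun h3 => h1 (hr.trans h2 (hr.symm h3))
    · simp only [h1, h2, iff_true]
      rcases h.2.1 x0 x y with h3 | h3 | h3
      · exact absurd h3 h1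
      · exact h3
      · exact absurd h3 h2
  by_cases hy : ∃ y0, ¬ r x0 y0
  · obtain ⟨y0, hy0⟩ := hy
    refine ⟨fun x => decide (r x0 x), fun x y => decide (({x, y, x0, y0} : Finset α) ∈ H), ?_,
      hpart, ?_⟩
    · intro x y
      simp only
      rw [Finset.insert_comm]
    have hEs : ∀ x y, decide (({x, y, x0, y0} : Finset α) ∈ H) =
        decide (({y, x, x0, y0} : Finset α) ∈ H) := by
      intro x y
      rw [Finset.insert_comm]
    -- the main formula
    have main1 : ∀ a b c d, r a b → r c d → ¬ r a c → r x0 a →
        decide (({a, b, c, d} : Finset α) ∈ H) =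
        ((decide (({a, c, x0, y0} : Finset α) ∈ H) ^^ decide (({a, d, x0, y0} : Finset α) ∈ H)) ^^
        (decide (({b, c, x0, y0} : Finset α) ∈ H) ^^ decide (({b, d, x0, y0} : Finset α) ∈ H))) := by
      intro a b c d hab hcd hac hxa
      have hcy : r c y0 := by
        rcases h.2.1 x0 c y0 with h3 | h3 | h3
        · exact absurd (hr.trans (hr.symm hxa) h3) hac
        · exact h3
        · exact absurd h3 hy0
      have hxc : ¬ r x0 c := fun h3 => hac (hr.trans (hr.symm hxa) h3)
      have k1 := h.cocycle hab (hr.symm hxa) hcd hac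
      have key : ∀ z, r x0 z → decide (({z, x0, c, d} : Finset α) ∈ H) =
          (decide (({z, c, x0, y0} : Finset α) ∈ H) ^^
            decide (({z, d, x0, y0} : Finset α) ∈ H)) := by
        intro z hz
        have k2 := h.cocycle (a := c) (b := d) (e := y0) (c := z) (d := x0) hcd hcy
          (hr.symm hz) (fun h3 => hxc (hr.trans hz (hr.symm h3)))
        rw [quad_comm c d z x0] at k2
        have e1 : ({c, y0, z, x0} : Finset α) = {z, c, x0, y0} := by
          ext w
          simp only [Finset.mem_insert, Finset.mem_singleton]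
          tauto
        have e2 : ({d, y0, z, x0} : Finset α) = {z, d, x0, y0} := by
          ext w
          simp only [Finset.mem_insert, Finset.mem_singleton]
          tauto
        rw [e1, e2] at k2
        revert k2
        generalize decide (({z, x0, c, d} : Finset α) ∈ H) = u1
        generalize decide (({z, c, x0, y0} : Finset α) ∈ H) = u2
        generalize decide (({z, d, x0, y0} : Finset α) ∈ H) = u3
        revert u1 u2 u3
        decide
      rw [key a hxa, key b (hr.trans hxa hab)] at k1
      revert k1
      generalize decide (({a, b, c, d} : Finset α) ∈ H) = u0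
      generalize decide (({a, c, x0, y0} : Finset α) ∈ H) = u1
      generalize decide (({a, d, x0, y0} : Finset α) ∈ H) = u2
      generalize decide (({b, c, x0, y0} : Finset α) ∈ H) = u3
      generalize decide (({b, d, x0, y0} : Finset α) ∈ H) = u4
      revert u0 u1 u2 u3 u4
      decide
    have main2 : ∀ a b c d, r a b → r c d → ¬ r a c →
        decide (({a, b, c, d} : Finset α) ∈ H) =
        ((decide (({a, c, x0, y0} : Finset α) ∈ H) ^^ decide (({a, d, x0, y0} : Finset α) ∈ H)) ^^
        (decide (({b, c, x0, y0} : Finset α) ∈ H) ^^ decide (({b, d, x0, y0} : Finset α) ∈ H))) := by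
      intro a b c d hab hcd hac
      by_cases hxa : r x0 a
      · exact main1 a b c d hab hcd hac hxa
      · have hxc : r x0 c := by
          rcases h.2.1 x0 a c with h3 | h3 | h3
          · exact absurd h3 hxa
          · exact absurd h3 hac
          · exact h3
        have k := main1 c d a b hcd hab (fun h3 => hac (hr.symm h3)) hxc
        rw [quad_comm, k, hEs c a, hEs c b, hEs d a, hEs d b]
        generalize decide (({a, c, x0, y0} : Finset α) ∈ H) = u1
        generalize decide (({a, d, x0, y0} : Finset α) ∈ H) = u2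
        generalize decide (({b, c, x0, y0} : Finset α) ∈ H) = u3
        generalize decide (({b, d, x0, y0} : Finset α) ∈ H) = u4
        revert u1 u2 u3 u4
        decide
    ext e
    constructor
    · intro he
      obtain ⟨a, b, c, d, hab, hcd, rab, rcd, rac, rfl⟩ := h.normal he
      refine mem_mkH.2 ⟨a, b, c, d, hab, hcd, (hpart a b).1 rab, (hpart c d).1 rcd,
        fun h3 => rac ((hpart a c).2 h3), rfl, ?_⟩
      rw [← main2 a b c d rab rcd rac, decide_eq_true he]
    · intro he
      obtain ⟨a, b, c, d, hab, hcd, p1, p2, p3, rfl, hx⟩ := mem_mkH.1 he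
      rw [← main2 a b c d ((hpart a b).2 p1) ((hpart c d).2 p2)
        (fun h3 => p3 ((hpart a c).1 h3))] at hx
      exact of_decide_eq_true hx
  · push Not at hy
    refine ⟨fun x => decide (r x0 x), fun _ _ => false, fun _ _ => rfl, hpart, ?_⟩
    ext e
    constructor
    · intro he
      obtain ⟨a, b, c, d, hab, hcd, rab, rcd, rac, rfl⟩ := h.normal he
      exact absurd (hr.trans (hr.symm (hy a)) (hy c)) rac
    · intro he
      obtain ⟨a, b, c, d, hab, hcd, p1, p2, p3, rfl, hx⟩ := mem_mkH.1 he
      simp at hx

/-- Partial automorphisms of the three-graph lift to partial switching isomorphisms. -/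
theorem exists_lift {α : Type} [Fintype α] {part : α → Bool} {E : α → α → Bool}
    (hE : ∀ x y, E x y = E y x) (S : Finset α) (p : α → α) (hinj : Set.InjOn p (S : Set α))
    (hr : ∀ x ∈ S, ∀ y ∈ S, part x = part y ↔ part (p x) = part (p y))
    (hH : ∀ e ⊆ S, e ∈ mkH part E ↔ e.image p ∈ mkH part E) :
    ∃ (δ : Bool) (s : α → Bool), (∀ x ∈ S, part (p x) = (part x ^^ δ)) ∧
      ∀ x ∈ S, ∀ y ∈ S, part x ≠ part y → E (p x) (p y) = (E x y ^^ (s x ^^ s y)) := by
  have four : ∀ a ∈ S, ∀ b ∈ S, ∀ c ∈ S, ∀ d ∈ S, part a = part b → part c = part d →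
      part a ≠ part c → ((E a c ^^ E a d) ^^ (E b c ^^ E b d)) =
        ((E (p a) (p c) ^^ E (p a) (p d)) ^^ (E (p b) (p c) ^^ E (p b) (p d))) := by
    intro a ha b hb c hc d hd hab hcd hac
    by_cases e1 : a = b
    · subst e1
      simp
    by_cases e2 : c = d
    · subst e2
      simp
    have k1 := quad_mem hE e1 e2 hab hcd hac
    have k2 := quad_mem hE (fun h => e1 (hinj ha hb h)) (fun h => e2 (hinj hc hd h))
      ((hr a ha b hb).1 hab) ((hr c hc d hd).1 hcd) (fun h => hac ((hr a ha c hc).2 h))
    have k3 := hH {a, b, c, d} (by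
      intro z hz
      simp only [Finset.mem_insert, Finset.mem_singleton] at hz
      rcases hz with rfl | rfl | rfl | rfl <;> assumption)
    have k4 : ({a, b, c, d} : Finset α).image p = {p a, p b, p c, p d} := by
      simp [Finset.image_insert]
    rw [k4, k1, k2] at k3
    exact Bool.eq_iff_iff.2 k3
  have hδ : ∃ δ : Bool, ∀ x ∈ S, part (p x) = (part x ^^ δ) := by
    rcases S.eq_empty_or_nonempty with h | ⟨x1, hx1⟩
    · exact ⟨false, by simp [h]⟩
    · refine ⟨part x1 ^^ part (p x1), fun x hx => ?_⟩
      have := hr x hx x1 hx1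
      revert this
      generalize part x = u1
      generalize part x1 = u2
      generalize part (p x) = u3
      generalize part (p x1) = u4
      revert u1 u2 u3 u4
      decide
  obtain ⟨δ, hδ⟩ := hδ
  by_cases hu : ∃ u0 ∈ S, part u0 = true
  · by_cases hv : ∃ v0 ∈ S, part v0 = false
    · obtain ⟨u0, hu0, pu0⟩ := hu
      obtain ⟨v0, hv0, pv0⟩ := hv
      refine ⟨δ, fun x => if part x = true then (E (p x) (p v0) ^^ E x v0) else
        ((E (p u0) (p x) ^^ E u0 x) ^^ (E (p u0) (p v0) ^^ E u0 v0)), hδ, ?_⟩
      have k : ∀ x ∈ S, ∀ y ∈ S, part x = true → part y = false →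
          E (p x) (p y) = (E x y ^^ ((E (p x) (p v0) ^^ E x v0) ^^
            ((E (p u0) (p y) ^^ E u0 y) ^^ (E (p u0) (p v0) ^^ E u0 v0)))) := by
        intro x hx y hy px py
        have k0 := four x hx u0 hu0 y hy v0 hv0 (px.trans pu0.symm) (py.trans pv0.symm)
          (by rw [px, py]; decide)
        revert k0
        generalize E x y = u1
        generalize E x v0 = u2
        generalize E u0 y = u3
        generalize E u0 v0 = u4
        generalize E (p x) (p y) = u5
        generalize E (p x) (p v0) = u6
        generalize E (p u0) (p y) = u7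
        generalize E (p u0) (p v0) = u8
        revert u1 u2 u3 u4 u5 u6 u7 u8
        decide
      intro x hx y hy hxy
      cases px : part x
      · have py : part y = true := by
          rw [px] at hxy
          revert hxy
          cases part y <;> simp
        simp only [px, py, if_true]
        rw [hE (p x), hE x y, k y hy x hx py px]
        simp only [Bool.false_eq_true, if_false]
        congr 1
        rw [Bool.xor_comm]
      · have py : part y = false := by
          rw [px] at hxy
          revert hxy
          cases part y <;> simp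
        simp only [px, py, if_true]
        rw [k x hx y hy px py]
        simp only [Bool.false_eq_true, if_false]
    · push Not at hv
      refine ⟨δ, fun _ => false, hδ, fun x hx y hy hxy => absurd ?_ hxy⟩
      have h1 := hv x hx
      have h2 := hv y hy
      rw [ne_eq, Bool.not_eq_false] at h1 h2
      rw [h1, h2]
  · push Not at hu
    refine ⟨δ, fun _ => false, hδ, fun x hx y hy hxy => absurd ?_ hxy⟩
    have h1 := hu x hx
    have h2 := hu y hy
    rw [ne_eq, Bool.not_eq_true] at h1 h2
    rw [h1, h2]

/-- vertices of the extension -/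
abbrev Ext (α : Type) : Type := (α × Bool) × (α → Bool)

def pB {α : Type} (v : Ext α) : Bool := v.1.2

def EB {α : Type} (v w : Ext α) : Bool := v.2 w.1.1 ^^ w.2 v.1.1

def chi {α : Type} (part : α → Bool) (E : α → α → Bool) (x y : α) : Bool :=
  if part x = true then false else E x y

def emb {α : Type} (part : α → Bool) (E : α → α → Bool) (x : α) : Ext α :=
  ((x, part x), chi part E x)

theorem emb_inj {α : Type} (part : α → Bool) (E : α → α → Bool) :
    Function.Injective (emb part E) := by
  intro x y h
  have h1 : (emb part E x).1.1 = (emb part E y).1.1 := by rw [h]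
  exact h1

theorem EB_comm {α : Type} (v w : Ext α) : EB v w = EB w v := by
  unfold EB
  rw [Bool.xor_comm]

theorem EB_emb {α : Type} (part : α → Bool) (E : α → α → Bool) (hE : ∀ x y, E x y = E y x)
    (x y : α) (h : part x ≠ part y) : EB (emb part E x) (emb part E y) = E x y := by
  unfold EB emb chi
  simp only
  cases hx : part x <;> cases hy : part y
  · exact absurd (hx.trans hy.symm) h
  · simp
  · simp [hE x y]
  · exact absurd (hx.trans hy.symm) h

/-- the lifted map -/
def lft {α : Type} (π : Equiv.Perm α) (δ : Bool) (F : α × Bool → α → Bool) :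
    Ext α ≃ Ext α where
  toFun v := ((π v.1.1, v.1.2 ^^ δ), fun z => v.2 (π.symm z) ^^ F v.1 (π.symm z))
  invFun w := ((π.symm w.1.1, w.1.2 ^^ δ), fun z => w.2 (π z) ^^
    F (π.symm w.1.1, w.1.2 ^^ δ) z)
  left_inv := by
    rintro ⟨⟨x, s⟩, c⟩
    simp
  right_inv := by
    rintro ⟨⟨x, s⟩, c⟩
    simp

theorem exists_auto {α : Type} [Fintype α] {part : α → Bool} {E : α → α → Bool}
    (hE : ∀ x y, E x y = E y x) (S : Finset α) (p : α → α) (hinj : Set.InjOn p (S : Set α))
    (hr : ∀ x ∈ S, ∀ y ∈ S, part x = part y ↔ part (p x) = part (p y))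
    (hH : ∀ e ⊆ S, e ∈ mkH part E ↔ e.image p ∈ mkH part E) :
    ∃ (σ : Ext α ≃ Ext α) (t : Ext α → Bool), (∀ v w, pB v = pB w ↔ pB (σ v) = pB (σ w)) ∧
      (∀ v w, pB v ≠ pB w → EB (σ v) (σ w) = (EB v w ^^ (t v ^^ t w))) ∧
      ∀ x ∈ S, σ (emb part E x) = emb part E (p x) := by
  obtain ⟨δ, s, h1, h2⟩ := exists_lift hE S p hinj hr hH
  obtain ⟨g, hg⟩ : ∃ g : α ≃ (Finset.univ : Finset α), ∀ i ∈ S, (g i : α) = p i :=
    Finset.exists_equiv_extend_of_card_eq (by simp) (by simp) hinj
  set π : Equiv.Perm α := g.trans (Equiv.subtypeUnivEquiv (fun x => Finset.mem_univ x)) with hπ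
  have hπS : ∀ x ∈ S, π x = p x := hg
  -- domain of the lifted partial map
  let Dm : α × Bool → Prop := fun e => e.1 ∈ S ∧ part e.1 = e.2
  let G : α → α → Bool := fun x y => chi part E (p x) (π y) ^^ chi part E x y
  let F : α × Bool → α → Bool := fun e y =>
    if Dm e then G e.1 y else if Dm (y, !e.2) then G y e.1 ^^ s y else false
  refine ⟨lft π δ F, fun v => if Dm v.1 then s v.1.1 else false, ?_, ?_, ?_⟩
  · intro v w
    unfold pB lft
    simp only [Equiv.coe_fn_mk]
    generalize v.1.2 = u1
    generalize w.1.2 = u2
    clear h1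
    cases u1 <;> cases u2 <;> cases δ <;> simp
  · rintro ⟨⟨x, i⟩, χ⟩ ⟨⟨y, j⟩, ψ⟩ hvw
    have hij : i ≠ j := hvw
    have hj : j = !i := by
      clear hvw
      revert hij
      cases i <;> cases j <;> simp
    subst hj
    have hval : EB (lft π δ F ((x, i), χ)) (lft π δ F ((y, !i), ψ)) =
        ((χ y ^^ F (x, i) y) ^^ (ψ x ^^ F (y, !i) x)) := by
      unfold EB lft
      simp
    have hval2 : EB (((x, i), χ) : Ext α) ((y, !i), ψ) = (χ y ^^ ψ x) := rfl
    rw [hval, hval2]
    have hF : (F (x, i) y ^^ F (y, !i) x) =
        ((if Dm (x, i) then s x else false) ^^ (if Dm (y, !i) then s y else false)) := by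
      by_cases d1 : Dm (x, i) <;> by_cases d2 : Dm (y, !i)
      · simp only [F, d1, d2, if_true]
        have q1 := EB_emb part E hE x y (by rw [d1.2, d2.2]; cases i <;> simp)
        have q2 := EB_emb part E hE (p x) (p y) (by
          intro h3
          have := (hr x d1.1 y d2.1).2 h3
          rw [d1.2, d2.2] at this
          revert this
          cases i <;> simp)
        have q3 := h2 x d1.1 y d2.1 (by rw [d1.2, d2.2]; cases i <;> simp)
        have q4 : EB (emb part E x) (emb part E y) = (chi part E x y ^^ chi part E y x) := rfl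
        have q5 : EB (emb part E (p x)) (emb part E (p y)) =
          (chi part E (p x) (p y) ^^ chi part E (p y) (p x)) := rfl
        simp only [G]
        rw [hπS x d1.1, hπS y d2.1]
        rw [q4] at q1
        rw [q5] at q2
        rw [← q1, ← q2] at q3
        revert q3
        generalize chi part E (p x) (p y) = u1
        generalize chi part E (p y) (p x) = u2
        generalize chi part E x y = u3
        generalize chi part E y x = u4
        generalize s x = u5
        generalize s y = u6
        revert u1 u2 u3 u4 u5 u6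
        decide
      · simp only [F, d1, d2, if_true, if_false, Bool.not_not]
        generalize G x y = u1
        generalize s x = u2
        revert u1 u2
        decide
      · simp only [F, d1, d2, if_true, if_false]
        generalize G y x = u1
        generalize s y = u2
        revert u1 u2
        decide
      · simp only [F, d1, d2, if_false, Bool.not_not]
    simp only
    rw [← hF]
    generalize χ y = u1
    generalize ψ x = u2
    generalize F (x, i) y = u3
    generalize F (y, !i) x = u4
    revert u1 u2 u3 u4
    decide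
  · intro x hx
    unfold lft emb
    simp only [Equiv.coe_fn_mk]
    have hd : Dm (x, part x) := ⟨hx, rfl⟩
    refine Prod.ext (Prod.ext (hπS x hx) (h1 x hx).symm) ?_
    funext z
    simp only [F, hd, if_true, G, Equiv.apply_symm_apply]
    generalize chi part E x (π.symm z) = u1
    generalize chi part E (p x) z = u2
    revert u1 u2
    decide

theorem main {n : ℕ} {rA : Fin n → Fin n → Prop} {HA : Finset (Finset (Fin n))}
    (hA : IsTG rA HA) :
    ∃ (m : ℕ) (rB : Fin m → Fin m → Prop) (HB : Finset (Finset (Fin m))),
      IsTG rB HB ∧ ∃ f : Fin n ↪ Fin m,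
          (∀ x y, rA x y ↔ rB (f x) (f y)) ∧
          (∀ e : Finset (Fin n), e ∈ HA ↔ e.map f ∈ HB) ∧
          ∀ (S : Finset (Fin n)) (p : Fin n → Fin n),
            Set.InjOn p (S : Set (Fin n)) →
            (∀ x ∈ S, ∀ y ∈ S, rA x y ↔ rA (p x) (p y)) →
            (∀ e ⊆ S, e ∈ HA ↔ e.image p ∈ HA) →
            ∃ σ : Fin m ≃ Fin m,
              (∀ x y, rB x y ↔ rB (σ x) (σ y)) ∧
              (∀ e : Finset (Fin m), e ∈ HB ↔ e.map σ.toEmbedding ∈ HB) ∧
              ∀ x ∈ S, σ (f x) = f (p x) := by
  obtain ⟨part, E, hE, hr, rfl⟩ := exists_rep hA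
  let ε : Ext (Fin n) ≃ Fin (Fintype.card (Ext (Fin n))) := Fintype.equivFin _
  let P : Fin (Fintype.card (Ext (Fin n))) → Bool := fun x => pB (ε.symm x)
  let Q : Fin (Fintype.card (Ext (Fin n))) → Fin (Fintype.card (Ext (Fin n))) → Bool :=
    fun x y => EB (ε.symm x) (ε.symm y)
  have hinj0 : Function.Injective (fun x => ε (emb part E x)) :=
    fun x y h => emb_inj part E (ε.injective h)
  refine ⟨Fintype.card (Ext (Fin n)), fun x y => P x = P y, mkH P Q,
    isTG_mkH (fun x y => EB_comm _ _), ⟨fun x => ε (emb part E x), hinj0⟩, ?_, ?_, ?_⟩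
  · intro x y
    rw [hr]
    simp [P, pB, emb]
  · intro e
    refine mkH_map _ ?_ (fun _ => false) ?_ e
    · intro x y
      simp [P, pB, emb]
    · intro x y hxy
      show EB (ε.symm (ε (emb part E x))) (ε.symm (ε (emb part E y))) = _
      rw [Equiv.symm_apply_apply, Equiv.symm_apply_apply, EB_emb part E hE x y hxy]
      simp
  · intro S p hinj hS hH
    obtain ⟨σ, t, h1, h2, h3⟩ := exists_auto (part := part) (E := E) hE S p hinj
      (fun x hx y hy => (hr x y).symm.trans ((hS x hx y hy).trans (hr (p x) (p y))))
      (by intro e he; convert hH e he)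
    have hPQ1 : ∀ x y, P x = P y ↔ P (((ε.symm.trans σ).trans ε) x) =
        P (((ε.symm.trans σ).trans ε) y) := by
      intro x y
      simp only [P, Equiv.trans_apply, Equiv.symm_apply_apply]
      exact h1 _ _
    refine ⟨(ε.symm.trans σ).trans ε, hPQ1, ?_, ?_⟩
    · intro e
      refine mkH_map _ hPQ1 (fun x => t (ε.symm x)) ?_ e
      intro x y hxy
      simp only [Q, Equiv.coe_toEmbedding, Equiv.trans_apply, Equiv.symm_apply_apply]
      exact h2 _ _ hxy
    · intro x hx
      simp only [Function.Embedding.coeFn_mk, Equiv.trans_apply, Equiv.symm_apply_apply]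
      rw [h3 x hx]

end Pool.Agent.TH499.EPPA
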