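import Pool.Agent.TH371.Apy.Defs

/-!
# The recurrences of the Apery numbers and their growth (job 1146)
-/

set_option autoImplicit false

namespace Pool.Agent.TH499.Apy

open Finset
open Pool.Agent.TH371.Apy

/-- `C(N, K+1)` in terms of `C(N, K)` -/
theorem ch1 (N K : ℕ) : ((N.choose (K + 1) : ℕ) : ℚ) =
    ((N : ℚ) - K) / (K + 1) * ((N.choose K : ℕ) : ℚ) := by
  have hk : ((K : ℚ) + 1) ≠ 0 := by positivity
  rcases le_or_gt K N with h | h
  · have := Nat.choose_succ_right_eq N K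
    have h2 : ((N.choose (K + 1) : ℕ) : ℚ) * (K + 1) = ((N.choose K : ℕ) : ℚ) * ((N : ℚ) - K) := by
      rw [← Nat.cast_sub h]
      exact_mod_cast this
    field_simp
    linear_combination h2
  · rw [Nat.choose_eq_zero_of_lt h, Nat.choose_eq_zero_of_lt (by omega)]
    simp

/-- `C(N+1, K+1)` in terms of `C(N, K)` -/
theorem ch2 (N K : ℕ) : (((N + 1).choose (K + 1) : ℕ) : ℚ) =
    ((N : ℚ) + 1) / (K + 1) * ((N.choose K : ℕ) : ℚ) := by
  have hk : ((K : ℚ) + 1) ≠ 0 := by positivity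
  have := Nat.add_one_mul_choose_eq N K
  have h2 : ((N : ℚ) + 1) * ((N.choose K : ℕ) : ℚ) =
      (((N + 1).choose (K + 1) : ℕ) : ℚ) * (K + 1) := by
    exact_mod_cast this
  field_simp
  linear_combination -h2

/-- `C(N, K)` in terms of `C(N+1, K)` -/
theorem ch3 (N K : ℕ) : ((N.choose K : ℕ) : ℚ) =
    ((N : ℚ) + 1 - K) / (N + 1) * (((N + 1).choose K : ℕ) : ℚ) := by
  have hk : ((N : ℚ) + 1) ≠ 0 := by positivity
  rcases le_or_gt K (N + 1) with h | h
  · have := Nat.choose_mul_succ_eq N K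
    have h2 : ((N.choose K : ℕ) : ℚ) * (N + 1) =
        (((N + 1).choose K : ℕ) : ℚ) * ((N : ℚ) + 1 - K) := by
      have e : ((N : ℚ) + 1 - K) = ((N + 1 - K : ℕ) : ℚ) := by
        rw [Nat.cast_sub h]; push_cast; ring
      rw [e]
      exact_mod_cast this
    field_simp
    linear_combination h2
  · rw [Nat.choose_eq_zero_of_lt h, Nat.choose_eq_zero_of_lt (by omega)]
    simp

/-- `C(N+K+1, K+1)` in terms of `C(N+K, K)` -/
theorem ch4 (N K : ℕ) : (((N + (K + 1)).choose (K + 1) : ℕ) : ℚ) =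
    ((N : ℚ) + K + 1) / (K + 1) * (((N + K).choose K : ℕ) : ℚ) := by
  have := ch2 (N + K) K
  rw [← add_assoc, this]
  push_cast
  ring

/-- `C(N+1+K, K)` in terms of `C(N+K, K)` -/
theorem ch5 (N K : ℕ) : (((N + 1 + K).choose K : ℕ) : ℚ) =
    ((N : ℚ) + K + 1) / (N + 1) * (((N + K).choose K : ℕ) : ℚ) := by
  have h := ch2 (N + K) N
  have e1 : (N + 1 + K).choose K = (N + K + 1).choose (N + 1) := by
    rw [show N + K + 1 = N + 1 + K by ring]
    exact (Nat.choose_symm_add).symm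
  have e2 : (N + K).choose K = (N + K).choose N := (Nat.choose_symm_add).symm
  rw [e1, e2, h]
  push_cast
  ring

/-- summand of the numbers for zeta(3), in the rationals -/
def sA (n k : ℕ) : ℚ := ((n.choose k : ℕ) : ℚ) ^ 2 * (((n + k).choose k : ℕ) : ℚ) ^ 2

/-- summand of the numbers for zeta(2), in the rationals -/
def sB (n k : ℕ) : ℚ := ((n.choose k : ℕ) : ℚ) ^ 2 * (((n + k).choose k : ℕ) : ℚ)

theorem castA (n M : ℕ) (h : n < M) : ((apA n : ℤ) : ℚ) = ∑ k ∈ range M, sA n k := by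
  have h1 : ((apA n : ℤ) : ℚ) = ∑ k ∈ range (n + 1), sA n k := by
    unfold apA sA
    push_cast
    rfl
  rw [h1]
  apply Finset.sum_subset
  · intro x hx
    rw [mem_range] at hx ⊢
    omega
  · intro x _ hx
    rw [mem_range] at hx
    unfold sA
    rw [Nat.choose_eq_zero_of_lt (by omega)]
    simp

theorem castB (n M : ℕ) (h : n < M) : ((apB n : ℤ) : ℚ) = ∑ k ∈ range M, sB n k := by
  have h1 : ((apB n : ℤ) : ℚ) = ∑ k ∈ range (n + 1), sB n k := by
    unfold apB sB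
    push_cast
    rfl
  rw [h1]
  apply Finset.sum_subset
  · intro x hx
    rw [mem_range] at hx ⊢
    omega
  · intro x _ hx
    rw [mem_range] at hx
    unfold sB
    rw [Nat.choose_eq_zero_of_lt (by omega)]
    simp

/-- certificate for zeta(3) -/
def gA (n k : ℕ) : ℚ := 4 * (2 * ((n : ℚ) + 1) + 1) *
  ((k : ℚ) * (2 * k + 1) - (2 * ((n : ℚ) + 1) + 1) ^ 2) * sA (n + 1) k

/-- certificate for zeta(2) -/
def gB (n k : ℕ) : ℚ := ((k : ℚ) ^ 2 + 3 * (2 * ((n : ℚ) + 1) + 1) * k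
  - 11 * ((n : ℚ) + 1) ^ 2 - 9 * ((n : ℚ) + 1) - 2) * sB (n + 1) k

/-- left hand side for zeta(3) -/
def fA (n k : ℕ) : ℚ := ((n : ℚ) + 2) ^ 3 * sA (n + 2) k -
  (34 * ((n : ℚ) + 1) ^ 3 + 51 * ((n : ℚ) + 1) ^ 2 + 27 * ((n : ℚ) + 1) + 5) * sA (n + 1) k +
  ((n : ℚ) + 1) ^ 3 * sA n k

/-- left hand side for zeta(2) -/
def fB (n k : ℕ) : ℚ := ((n : ℚ) + 2) ^ 2 * sB (n + 2) k -
  (11 * ((n : ℚ) + 1) ^ 2 + 11 * ((n : ℚ) + 1) + 3) * sB (n + 1) k -
  ((n : ℚ) + 1) ^ 2 * sB n k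

theorem stepA (n k : ℕ) : fA n (k + 1) = gA n (k + 1) - gA n k := by
  have hn1 : ((n : ℚ) + 1) ≠ 0 := by positivity
  have hn2 : ((n : ℚ) + 2) ≠ 0 := by positivity
  have hk1 : ((k : ℚ) + 1) ≠ 0 := by positivity
  unfold fA gA sA
  -- binomials with upper index n + 2
  have a1 : (((n + 2).choose (k + 1) : ℕ) : ℚ) =
      ((n : ℚ) + 2) / (k + 1) * (((n + 1).choose k : ℕ) : ℚ) := by
    have := ch2 (n + 1) k
    rw [this]; push_cast; ring
  have a2 : (((n + 1).choose (k + 1) : ℕ) : ℚ) =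
      ((n : ℚ) + 1 - k) / (k + 1) * (((n + 1).choose k : ℕ) : ℚ) := by
    have := ch1 (n + 1) k
    rw [this]; push_cast; ring
  have a3 : ((n.choose (k + 1) : ℕ) : ℚ) =
      ((n : ℚ) - k) / (n + 1) * (((n : ℚ) + 1 - k) / (k + 1) * (((n + 1).choose k : ℕ) : ℚ)) := by
    have := ch3 n (k + 1)
    rw [this, a2]; push_cast; ring
  have b2 : (((n + 1 + (k + 1)).choose (k + 1) : ℕ) : ℚ) =
      ((n : ℚ) + k + 2) / (k + 1) * (((n + 1 + k).choose k : ℕ) : ℚ) := by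
    have := ch4 (n + 1) k
    rw [this]; push_cast; ring
  have b1 : (((n + 2 + (k + 1)).choose (k + 1) : ℕ) : ℚ) =
      ((n : ℚ) + k + 3) / (n + 2) *
        (((n : ℚ) + k + 2) / (k + 1) * (((n + 1 + k).choose k : ℕ) : ℚ)) := by
    have := ch5 (n + 1) (k + 1)
    rw [show n + 2 + (k + 1) = n + 1 + 1 + (k + 1) by ring, this, b2]; push_cast; ring
  have b3 : (((n + (k + 1)).choose (k + 1) : ℕ) : ℚ) =
      ((n : ℚ) + 1) / (k + 1) * (((n + 1 + k).choose k : ℕ) : ℚ) := by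
    have := ch4 n k
    have h5 := ch5 n k
    rw [this, h5]
    field_simp
  rw [a1, a2, a3, b1, b2, b3]
  push_cast
  field_simp
  ring

theorem stepB (n k : ℕ) : fB n (k + 1) = gB n (k + 1) - gB n k := by
  have hn1 : ((n : ℚ) + 1) ≠ 0 := by positivity
  have hn2 : ((n : ℚ) + 2) ≠ 0 := by positivity
  have hk1 : ((k : ℚ) + 1) ≠ 0 := by positivity
  unfold fB gB sB
  have a1 : (((n + 2).choose (k + 1) : ℕ) : ℚ) =
      ((n : ℚ) + 2) / (k + 1) * (((n + 1).choose k : ℕ) : ℚ) := by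
    have := ch2 (n + 1) k
    rw [this]; push_cast; ring
  have a2 : (((n + 1).choose (k + 1) : ℕ) : ℚ) =
      ((n : ℚ) + 1 - k) / (k + 1) * (((n + 1).choose k : ℕ) : ℚ) := by
    have := ch1 (n + 1) k
    rw [this]; push_cast; ring
  have a3 : ((n.choose (k + 1) : ℕ) : ℚ) =
      ((n : ℚ) - k) / (n + 1) * (((n : ℚ) + 1 - k) / (k + 1) * (((n + 1).choose k : ℕ) : ℚ)) := by
    have := ch3 n (k + 1)
    rw [this, a2]; push_cast; ring
  have b2 : (((n + 1 + (k + 1)).choose (k + 1) : ℕ) : ℚ) =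
      ((n : ℚ) + k + 2) / (k + 1) * (((n + 1 + k).choose k : ℕ) : ℚ) := by
    have := ch4 (n + 1) k
    rw [this]; push_cast; ring
  have b1 : (((n + 2 + (k + 1)).choose (k + 1) : ℕ) : ℚ) =
      ((n : ℚ) + k + 3) / (n + 2) *
        (((n : ℚ) + k + 2) / (k + 1) * (((n + 1 + k).choose k : ℕ) : ℚ)) := by
    have := ch5 (n + 1) (k + 1)
    rw [show n + 2 + (k + 1) = n + 1 + 1 + (k + 1) by ring, this, b2]; push_cast; ring
  have b3 : (((n + (k + 1)).choose (k + 1) : ℕ) : ℚ) =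
      ((n : ℚ) + 1) / (k + 1) * (((n + 1 + k).choose k : ℕ) : ℚ) := by
    have := ch4 n k
    have h5 := ch5 n k
    rw [this, h5]
    field_simp
  rw [a1, a2, a3, b1, b2, b3]
  push_cast
  field_simp
  ring

theorem teleA (n K : ℕ) : ∑ k ∈ range (K + 1), fA n k = gA n K := by
  induction K with
  | zero =>
    simp [fA, gA, sA]
    ring
  | succ K ih =>
    rw [Finset.sum_range_succ, ih, stepA]
    ring

theorem teleB (n K : ℕ) : ∑ k ∈ range (K + 1), fB n k = gB n K := by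
  induction K with
  | zero =>
    simp [fB, gB, sB]
    ring
  | succ K ih =>
    rw [Finset.sum_range_succ, ih, stepB]
    ring

end Pool.Agent.TH499.Apy

namespace Pool.Agent.TH371.Apy

open Finset Pool.Agent.TH499.Apy

theorem recA (n : ℕ) : ((n : ℤ) + 2) ^ 3 * apA (n + 2) =
    (34 * ((n : ℤ) + 1) ^ 3 + 51 * ((n : ℤ) + 1) ^ 2 + 27 * ((n : ℤ) + 1) + 5) * apA (n + 1) -
      ((n : ℤ) + 1) ^ 3 * apA n := by
  have h := teleA n (n + 2)
  have h0 : gA n (n + 2) = 0 := by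
    unfold gA sA
    rw [Nat.choose_eq_zero_of_lt (by omega)]
    simp
  rw [h0] at h
  unfold fA at h
  rw [Finset.sum_add_distrib, Finset.sum_sub_distrib, ← Finset.mul_sum, ← Finset.mul_sum,
    ← Finset.mul_sum, ← castA (n + 2) (n + 2 + 1) (by omega), ← castA (n + 1) (n + 2 + 1) (by omega),
    ← castA n (n + 2 + 1) (by omega)] at h
  have h' : (((n : ℤ) + 2) ^ 3 * apA (n + 2) : ℚ) =
    (34 * ((n : ℤ) + 1) ^ 3 + 51 * ((n : ℤ) + 1) ^ 2 + 27 * ((n : ℤ) + 1) + 5) * apA (n + 1) -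
      ((n : ℤ) + 1) ^ 3 * apA n := by
    push_cast
    linear_combination h
  exact_mod_cast h'

theorem recB (n : ℕ) : ((n : ℤ) + 2) ^ 2 * apB (n + 2) =
    (11 * ((n : ℤ) + 1) ^ 2 + 11 * ((n : ℤ) + 1) + 3) * apB (n + 1) +
      ((n : ℤ) + 1) ^ 2 * apB n := by
  have h := teleB n (n + 2)
  have h0 : gB n (n + 2) = 0 := by
    unfold gB sB
    rw [Nat.choose_eq_zero_of_lt (by omega)]
    simp
  rw [h0] at h
  unfold fB at h
  rw [Finset.sum_sub_distrib, Finset.sum_sub_distrib, ← Finset.mul_sum, ← Finset.mul_sum,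
    ← Finset.mul_sum, ← castB (n + 2) (n + 2 + 1) (by omega), ← castB (n + 1) (n + 2 + 1) (by omega),
    ← castB n (n + 2 + 1) (by omega)] at h
  have h' : (((n : ℤ) + 2) ^ 2 * apB (n + 2) : ℚ) =
    (11 * ((n : ℤ) + 1) ^ 2 + 11 * ((n : ℤ) + 1) + 3) * apB (n + 1) +
      ((n : ℤ) + 1) ^ 2 * apB n := by
    push_cast
    linear_combination h
  exact_mod_cast h'

theorem apA_nonneg (n : ℕ) : 0 ≤ apA n := by
  unfold apA
  apply Finset.sum_nonneg
  intro i _
  positivity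

theorem apB_nonneg (n : ℕ) : 0 ≤ apB n := by
  unfold apB
  apply Finset.sum_nonneg
  intro i _
  positivity

theorem growA5 (n : ℕ) : 5 * apA n ≤ apA (n + 1) := by
  induction n with
  | zero => decide
  | succ n ih =>
    have h := recA n
    have h0 := apA_nonneg n
    have h1 := apA_nonneg (n + 1)
    have hp : (0 : ℤ) < ((n : ℤ) + 2) ^ 3 := by positivity
    have key : ((n : ℤ) + 2) ^ 3 * (5 * apA (n + 1)) ≤ ((n : ℤ) + 2) ^ 3 * apA (n + 1 + 1) := by
      have hn : (0 : ℤ) ≤ (n : ℤ) := by positivity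
      have e : apA (n + 1 + 1) = apA (n + 2) := rfl
      rw [e, h]
      have h2 : ((n : ℤ) + 1) ^ 3 * apA n ≤ ((n : ℤ) + 1) ^ 3 * apA (n + 1) := by
        apply mul_le_mul_of_nonneg_left _ (by positivity)
        linarith
      have h3 : 0 ≤ ((34 * ((n : ℤ) + 1) ^ 3 + 51 * ((n : ℤ) + 1) ^ 2 + 27 * ((n : ℤ) + 1) + 5) -
          ((n : ℤ) + 1) ^ 3 - 5 * ((n : ℤ) + 2) ^ 3) * apA (n + 1) := by
        apply mul_nonneg _ h1
        ring_nf
        positivity
      linarith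
    exact le_of_mul_le_mul_left key hp

theorem growA (n : ℕ) : 3 * apA n ≤ apA (n + 1) := by
  have := growA5 n
  have := apA_nonneg n
  linarith

theorem growB (n : ℕ) : 3 * apB n ≤ apB (n + 1) := by
  cases n with
  | zero => decide
  | succ n =>
    have h := recB n
    have h0 := apB_nonneg n
    have h1 := apB_nonneg (n + 1)
    have hp : (0 : ℤ) < ((n : ℤ) + 2) ^ 2 := by positivity
    have key : ((n : ℤ) + 2) ^ 2 * (3 * apB (n + 1)) ≤ ((n : ℤ) + 2) ^ 2 * apB (n + 1 + 1) := by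
      have hn : (0 : ℤ) ≤ (n : ℤ) := by positivity
      have e : apB (n + 1 + 1) = apB (n + 2) := rfl
      rw [e, h]
      have h2 : 0 ≤ ((n : ℤ) + 1) ^ 2 * apB n := by positivity
      have h3 : 0 ≤ ((11 * ((n : ℤ) + 1) ^ 2 + 11 * ((n : ℤ) + 1) + 3) -
          3 * ((n : ℤ) + 2) ^ 2) * apB (n + 1) := by
        apply mul_nonneg _ h1
        ring_nf
        positivity
      linarith
    exact le_of_mul_le_mul_left key hp

end Pool.Agent.TH371.Apy
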