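import Pool.Agent.TH477.PA.Defs2
import Pool.Agent.TH477.PA.Tuple
import Pool.Agent.TH480.J676
import Pool.Agent.TH883.J645
set_option autoImplicit false
open Finset Pool.Agent.TH477.PA

namespace Pool.Agent.TH499.J810

theorem J21_exact (k D r p : ℕ) (ℓ : ℝ) (hO : Opt k D r ℓ) (hp : IsType k D r ℓ p)
    (β a1 a2 a3 : ℝ) (hβ : 0 < β) (hβ1 : β ≤ 1) (ha2 : 0 < a2) (ha : a2 < a1) (ha3 : 0 < a3) :
    ∃ δ0 : ℝ, 0 < δ0 ∧ ∃ n0 : ℕ, ∀ n, n0 ≤ n →
    ∀ (G : SimpleGraph (Fin n)) (A : Finset (Fin r)) (cls : Fin n → ℕ) (δ : ℝ)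
      (ψ : Sym2 (Fin n) → Fin r), A.card = ct k D p → (∀ x, cls x < p) → 0 < δ → δ ≤ δ0 →
      Good k (k.choose 2 + 1 - D) G Set.univ ψ → PR G A cls Set.univ β δ ψ →
      (∀ y, GoodStar G p A cls y a1 a2 a3 ψ) → Perf G p A ψ := by
  classical
  have hk := hO.hk
  obtain ⟨m, rfl⟩ : ∃ m, k = m + 2 := ⟨k - 2, by omega⟩
  refine ⟨β ^ m * a3 / ((m : ℝ) + 1), by positivity, ⌈1 / (a1 - a2)⌉₊ + 1, ?_⟩
  intro n hn G A cls δ ψ hA hcls hδ hδ0 hgood hPR hstar
  have hn1 : 1 ≤ n := by omega
  have hn1' : (1 : ℝ) ≤ n := by exact_mod_cast hn1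
  have ha12 : 0 < a1 - a2 := by linarith
  have hnbig : 1 ≤ (a1 - a2) * n := by
    have h1 : (1 / (a1 - a2)) ≤ (⌈1 / (a1 - a2)⌉₊ : ℝ) := Nat.le_ceil _
    have h2 : ((⌈1 / (a1 - a2)⌉₊ + 1 : ℕ) : ℝ) ≤ n := by exact_mod_cast hn
    push_cast at h2
    have h3 : (1 / (a1 - a2)) ≤ (n : ℝ) := by linarith
    have h4 := mul_le_mul_of_nonneg_left h3 ha12.le
    rwa [mul_one_div_cancel ha12.ne'] at h4
  choose κ hκ hκ2 using hstar
  refine ⟨κ, hκ, ?_⟩
  intro x y hxy hκxy
  by_contra hg
  obtain ⟨J, hJlt, hJne, c, hcmem, hccard⟩ :=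
    Pool.Agent.TH480.J676.J17_exact (m + 2) D r p ℓ hO hp A hA (ψ s(x, y)) hg (κ x) (hκ x)
  have hxney : x ≠ y := hxy.ne
  have hc0 : ∀ t : Fin m, p = 1 → c 0 t.succ.succ ∈ A := by
    intro t hp1
    have h1 := hcmem 0 t.succ.succ (Fin.succ_pos _)
    beta_reduce at h1
    have h2 : ¬ (((0 : Fin (m + 2)).val = 0) ∧ (t.succ.succ : Fin (m + 2)).val = 1) := by
      simp
    rw [if_neg h2, if_pos (by simp), if_pos hp1] at h1
    exact h1
  have hc1 : ∀ t : Fin m, p = 1 → c 1 t.succ.succ ∈ A := by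
    intro t hp1
    have h1 := hcmem 1 t.succ.succ (by
      rw [Fin.lt_def]; simp)
    beta_reduce at h1
    have h2 : ¬ (((1 : Fin (m + 2)).val = 0) ∧ (t.succ.succ : Fin (m + 2)).val = 1) := by
      simp
    rw [if_neg h2, if_pos (by simp), if_pos hp1] at h1
    exact h1
  have hc2 : ∀ t t' : Fin m, t < t' → (J t.succ.succ ≠ J t'.succ.succ ∨
      c t.succ.succ t'.succ.succ ∈ A) := by
    intro t t' htt
    have h1 := hcmem t.succ.succ t'.succ.succ (Fin.succ_lt_succ_iff.2 (Fin.succ_lt_succ_iff.2 htt))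
    beta_reduce at h1
    have h2 : ¬ (((t.succ.succ : Fin (m + 2)).val = 0) ∧ (t'.succ.succ : Fin (m + 2)).val = 1) := by
      simp
    have h3 : ¬ ((t.succ.succ : Fin (m + 2)).val ≤ 1) := by simp
    rw [if_neg h2, if_neg h3] at h1
    by_cases h4 : J t.succ.succ = J t'.succ.succ
    · rw [if_pos h4] at h1; exact Or.inr h1
    · exact Or.inl h4
  have hc01 : c 0 1 = ψ s(x, y) := by
    have h1 := hcmem 0 1 (by rw [Fin.lt_def]; simp)
    beta_reduce at h1
    rw [if_pos ⟨Fin.val_zero _, Fin.val_one _⟩] at h1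
    exact Finset.mem_singleton.1 h1
  -- the sets
  let X : Fin m → Finset (Fin n) := fun t => univ.filter (fun v => cls v = J t.succ.succ ∧
    G.Adj x v ∧ ψ s(x, v) = c 0 t.succ.succ ∧ G.Adj y v ∧ ψ s(y, v) = c 1 t.succ.succ)
  have hXcard : ∀ t, a3 * n ≤ ((X t).card : ℝ) := by
    intro t
    have hj := hJlt t.succ.succ
    have hjne : p = 1 ∨ J t.succ.succ ≠ κ x := hJne t.succ.succ (by simp)
    have h1 := (hκ2 x _ hj hjne (c 0 t.succ.succ) (hc0 t)).1
    have h2 := (hκ2 y _ hj (by rw [← hκxy]; exact hjne) (c 1 t.succ.succ) (hc1 t)).2 x hxney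
      (c 0 t.succ.succ) (by
        have h3 : ∑ v, ind (cls v = J t.succ.succ ∧ G.Adj x v ∧ ψ s(x, v) = c 0 t.succ.succ) ≤
            ∑ v, ind (cls v = J t.succ.succ ∧ v ≠ y ∧ G.Adj x v ∧ ψ s(x, v) = c 0 t.succ.succ) +
              ∑ v, ind (v = y) := by
          rw [← Finset.sum_add_distrib]
          refine Finset.sum_le_sum fun v _ => ?_
          refine le_trans (ind_mono ?_) (ind_or_le _ _)
          intro h
          by_cases hv : v = y
          · exact Or.inr hv
          · exact Or.inl ⟨h.1, hv, h.2.1, h.2.2⟩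
        have h4 : ∑ v : Fin n, ind (v = y) = 1 := by
          rw [Finset.sum_eq_single y]
          · exact ind_pos rfl
          · intro b _ hb; exact ind_neg hb
          · intro h; exact absurd (Finset.mem_univ y) h
        nlinarith)
    have h5 : ((X t).card : ℝ) = ∑ v, ind (cls v = J t.succ.succ ∧
      G.Adj x v ∧ ψ s(x, v) = c 0 t.succ.succ ∧ G.Adj y v ∧ ψ s(y, v) = c 1 t.succ.succ) :=
      card_filter_ind _ _
    rw [h5]
    exact h2
  obtain ⟨a, ha1, ha2'⟩ := Pool.Agent.TH883.J645.J6_embed hn1 G A cls Set.univ β δ hβ hβ1 hδ ψ hPR m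
    (fun t => J t.succ.succ) X
    (fun t v hv => ⟨Set.mem_univ _, (Finset.mem_filter.1 hv).2.1⟩)
    (by
      intro t
      have h1 : ((m : ℝ) + 1) * δ ≤ β ^ m * a3 := by
        have h2 := mul_le_mul_of_nonneg_left hδ0 (by positivity : (0 : ℝ) ≤ (m : ℝ) + 1)
        rwa [mul_div_cancel₀ _ (by positivity : ((m : ℝ) + 1) ≠ 0)] at h2
      calc ((m : ℝ) + 1) * δ * n ≤ (β ^ m * a3) * n :=
            mul_le_mul_of_nonneg_right h1 (by positivity)
        _ = β ^ m * (a3 * n) := by ring
        _ ≤ β ^ m * ((X t).card : ℝ) := mul_le_mul_of_nonneg_left (hXcard t) (by positivity))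
    (fun t t' => c t.succ.succ t'.succ.succ) hc2
  let f : Fin (m + 2) → Fin n := Fin.cons x (Fin.cons y a)
  have hf : ∀ i j : Fin (m + 2), i < j → G.Adj (f i) (f j) ∧ ψ s(f i, f j) = c i j := by
    intro i j hij
    induction i using Fin.cases with
    | zero =>
      induction j using Fin.cases with
      | zero => exact absurd hij (lt_irrefl _)
      | succ j =>
        induction j using Fin.cases with
        | zero => exact ⟨hxy, hc01.symm⟩
        | succ j =>
          have h := (Finset.mem_filter.1 (ha1 j)).2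
          exact ⟨h.2.1, h.2.2.1⟩
    | succ i =>
      induction i using Fin.cases with
      | zero =>
        induction j using Fin.cases with
        | zero => exact absurd hij (not_lt.2 (Fin.zero_le _))
        | succ j =>
          induction j using Fin.cases with
          | zero => exact absurd hij (lt_irrefl _)
          | succ j =>
            have h := (Finset.mem_filter.1 (ha1 j)).2
            exact ⟨h.2.2.2.1, h.2.2.2.2⟩
      | succ i =>
        induction j using Fin.cases with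
        | zero => exact absurd hij (not_lt.2 (Fin.zero_le _))
        | succ j =>
          induction j using Fin.cases with
          | zero =>
            exact absurd (Fin.succ_lt_succ_iff.1 hij) (not_lt.2 (Fin.zero_le _))
          | succ j =>
            exact ha2' i j (Fin.succ_lt_succ_iff.1 (Fin.succ_lt_succ_iff.1 hij))
  have hfinj : Function.Injective f := by
    intro i j hij
    by_contra hne
    rcases lt_or_gt_of_ne hne with h | h
    · exact (hf i j h).1.ne hij
    · exact (hf j i h).1.ne hij.symm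
  have hclique : G.IsNClique (m + 2) (univ.image f) := by
    rw [SimpleGraph.isNClique_iff]
    refine ⟨?_, ?_⟩
    · intro u hu v hv huv
      rw [Finset.mem_coe, Finset.mem_image] at hu hv
      obtain ⟨i, -, rfl⟩ := hu
      obtain ⟨j, -, rfl⟩ := hv
      have hne : i ≠ j := fun h => huv (by rw [h])
      rcases lt_or_gt_of_ne hne with h | h
      · exact (hf i j h).1
      · exact (hf j i h).1.symm
    · rw [Finset.card_image_of_injective _ hfinj, Finset.card_univ, Fintype.card_fin]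
  have hlt := hgood _ hclique (fun v _ => Set.mem_univ v)
  have hsub : (univ.filter (fun q : Fin (m + 2) × Fin (m + 2) => q.1 < q.2)).image
      (fun q => c q.1 q.2) ⊆ cols ψ (univ.image f) := by
    intro z hz
    obtain ⟨⟨i, j⟩, hij, rfl⟩ := Finset.mem_image.1 hz
    have hij' : i < j := (Finset.mem_filter.1 hij).2
    unfold cols
    refine Finset.mem_image.2 ⟨(f i, f j), ?_, (hf i j hij').2⟩
    rw [Finset.mem_offDiag]
    exact ⟨Finset.mem_image_of_mem _ (Finset.mem_univ _),
      Finset.mem_image_of_mem _ (Finset.mem_univ _), (hf i j hij').1.ne⟩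
  have hle := Finset.card_le_card hsub
  omega

end Pool.Agent.TH499.J810
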